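import Mathlib

/-!
Combinations of the functions `x ↦ {θ / x}` on `(0, 1)` and Moebius inversion: the coefficients are
determined locally.
-/

set_option autoImplicit false

open MeasureTheory Filter Topology Set

namespace Pool.Agent.Helper39.NB

noncomputable section

/-- `∑ c θ {θ / x}` -/
def comb (s : Finset ℝ) (c : ℝ → ℝ) (x : ℝ) : ℝ := ∑ θ ∈ s, c θ * Int.fract (θ / x)

/-- `1` is a limit in `L^p(0,1)` of combinations with dilations in `A` -/
def Approx (p : ℝ) (A : Set ℝ) : Prop :=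
  ∀ ε : ℝ, 0 < ε → ∃ (s : Finset ℝ) (c : ℝ → ℝ), (∀ θ ∈ s, θ ∈ A) ∧ ∑ θ ∈ s, c θ * θ = 0 ∧
    ∫ x in (0 : ℝ)..1, |1 - comb s c x| ^ p < ε

lemma comb_meas (s : Finset ℝ) (c : ℝ → ℝ) : Measurable (comb s c) := by
  unfold comb
  refine Finset.measurable_fun_sum _ fun θ _ => ?_
  exact (measurable_fract.comp (measurable_const.div measurable_id)).const_mul _

lemma comb_abs (s : Finset ℝ) (c : ℝ → ℝ) (x : ℝ) : |comb s c x| ≤ ∑ θ ∈ s, |c θ| := by
  unfold comb
  refine (Finset.abs_sum_le_sum_abs _ _).trans (Finset.sum_le_sum fun θ _ => ?_)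
  rw [abs_mul, abs_of_nonneg (Int.fract_nonneg (θ / x))]
  exact mul_le_of_le_one_right (abs_nonneg _) (Int.fract_lt_one _).le

lemma err_int (s : Finset ℝ) (c : ℝ → ℝ) (a b : ℝ) :
    IntervalIntegrable (fun x => |1 - comb s c x|) volume a b := by
  refine (intervalIntegrable_const (c := 1 + ∑ θ ∈ s, |c θ|)).mono_fun
    ((measurable_const.sub (comb_meas s c)).abs.aestronglyMeasurable) ?_
  refine Eventually.of_forall fun x => ?_
  have h1 := comb_abs s c x
  have h2 : 0 ≤ ∑ θ ∈ s, |c θ| := Finset.sum_nonneg fun _ _ => abs_nonneg _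
  simp only [Real.norm_eq_abs, abs_abs]
  rw [abs_of_nonneg (by linarith : (0:ℝ) ≤ 1 + ∑ θ ∈ s, |c θ|)]
  calc |1 - comb s c x| ≤ |1| + |comb s c x| := abs_sub _ _
    _ ≤ 1 + ∑ θ ∈ s, |c θ| := by rw [abs_one]; linarith

/-- the sum of `μ(m) ⌊j/m⌋` -/
lemma mu_floor {n : ℕ} : ∀ j : ℕ, j ≤ n →
    ∑ k ∈ Finset.Icc 1 n, (ArithmeticFunction.moebius k : ℝ) * ((j / k : ℕ) : ℝ) =
      if j = 0 then 0 else 1 := by
  intro j
  induction j with
  | zero => intro _; simp
  | succ j ih =>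
    intro hj
    have h1 := ih (by omega)
    have h2 : ∑ k ∈ Finset.Icc 1 n, (ArithmeticFunction.moebius k : ℝ) * (((j + 1) / k : ℕ) : ℝ) =
        ∑ k ∈ Finset.Icc 1 n, (ArithmeticFunction.moebius k : ℝ) * ((j / k : ℕ) : ℝ) +
        ∑ k ∈ Finset.Icc 1 n, (if k ∣ j + 1 then (ArithmeticFunction.moebius k : ℝ) else 0) := by
      rw [← Finset.sum_add_distrib]
      refine Finset.sum_congr rfl fun k hk => ?_
      rw [Nat.succ_div]
      split_ifs
      · push_cast; ring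
      · push_cast; ring
    rw [h2, h1, ← Finset.sum_filter]
    have h3 : (Finset.Icc 1 n).filter (fun k => k ∣ j + 1) = (j + 1).divisors := by
      ext k
      simp only [Finset.mem_filter, Finset.mem_Icc, Nat.mem_divisors]
      constructor
      · rintro ⟨_, h⟩; exact ⟨h, by omega⟩
      · rintro ⟨h, _⟩
        exact ⟨⟨Nat.pos_of_dvd_of_pos h (by omega), (Nat.le_of_dvd (by omega) h).trans hj⟩, h⟩
    rw [h3]
    have h4 := congrArg (fun f : ArithmeticFunction ℤ => f (j + 1)) ArithmeticFunction.moebius_mul_coe_zeta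
    simp only [ArithmeticFunction.coe_mul_zeta_apply, ArithmeticFunction.one_apply] at h4
    have h5 : ∑ k ∈ (j + 1).divisors, (ArithmeticFunction.moebius k : ℝ) = if j + 1 = 1 then 1 else 0 := by
      exact_mod_cast h4
    rw [h5]
    rcases Nat.eq_zero_or_pos j with rfl | h0
    · simp
    · rw [if_neg (by omega), if_neg (by omega), if_neg (by omega), add_zero]

/-- the combination vanishes beyond `1` -/
lemma comb_zero {s : Finset ℝ} {c : ℝ → ℝ} (hs : ∀ θ ∈ s, 0 < θ ∧ θ ≤ 1) (hc : ∑ θ ∈ s, c θ * θ = 0)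
    {x : ℝ} (hx : 1 < x) : comb s c x = 0 := by
  unfold comb
  have h : ∀ θ ∈ s, c θ * Int.fract (θ / x) = c θ * θ * (1 / x) := by
    intro θ hθ
    have h1 := hs θ hθ
    rw [Int.fract_eq_self.mpr ⟨by have := h1.1; positivity, (div_lt_one (by linarith)).mpr (by linarith [h1.2])⟩]
    ring
  rw [Finset.sum_congr rfl h, ← Finset.sum_mul, hc, zero_mul]

lemma comb_floor {s : Finset ℝ} {c : ℝ → ℝ} (hs : ∀ θ ∈ s, 0 < θ ∧ θ ≤ 1) (hc : ∑ θ ∈ s, c θ * θ = 0)
    {x : ℝ} (hx : 0 < x) : comb s c x = -∑ θ ∈ s, c θ * (⌊θ / x⌋₊ : ℝ) := by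
  unfold comb
  have h : ∀ θ ∈ s, c θ * Int.fract (θ / x) = c θ * θ * (1 / x) - c θ * (⌊θ / x⌋₊ : ℝ) := by
    intro θ hθ
    have h1 := hs θ hθ
    have h2 : (0:ℝ) ≤ θ / x := by have := h1.1; positivity
    have h3 : Int.fract (θ / x) = θ / x - (⌊θ / x⌋₊ : ℝ) := by
      rw [Int.fract, ← natCast_floor_eq_intCast_floor h2]
    rw [h3]; ring
  rw [Finset.sum_congr rfl h, Finset.sum_sub_distrib, ← Finset.sum_mul, hc, zero_mul, zero_sub]

/-- Moebius inversion -/
lemma comb_inv {s : Finset ℝ} {c : ℝ → ℝ} (hs : ∀ θ ∈ s, 0 < θ ∧ θ ≤ 1) (hc : ∑ θ ∈ s, c θ * θ = 0)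
    {x : ℝ} {n : ℕ} (hx : 0 < x) (hn : 1 < ((n : ℝ) + 1) * x) :
    ∑ m ∈ Finset.Icc 1 n, (ArithmeticFunction.moebius m : ℝ) * comb s c (m * x) =
      -∑ θ ∈ s.filter (fun θ => x ≤ θ), c θ := by
  have h1 : ∀ m ∈ Finset.Icc 1 n, (ArithmeticFunction.moebius m : ℝ) * comb s c (m * x) =
      -∑ θ ∈ s, c θ * ((ArithmeticFunction.moebius m : ℝ) * ((⌊θ / x⌋₊ / m : ℕ) : ℝ)) := by
    intro m hm
    rw [Finset.mem_Icc] at hm
    have hm0 : (0:ℝ) < m := by exact_mod_cast hm.1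
    rw [comb_floor hs hc (by positivity), mul_neg, Finset.mul_sum]
    congr 1
    refine Finset.sum_congr rfl fun θ _ => ?_
    rw [mul_comm (m:ℝ) x, ← div_div, Nat.floor_div_natCast]
    ring
  rw [Finset.sum_congr rfl h1, Finset.sum_neg_distrib, Finset.sum_comm, Finset.sum_filter]
  congr 1
  refine Finset.sum_congr rfl fun θ hθ => ?_
  have h2 := hs θ hθ
  rw [← Finset.mul_sum, mu_floor]
  · rcases lt_or_ge θ x with h | h
    · rw [if_neg (not_le.mpr h), if_pos, mul_zero]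
      exact Nat.floor_eq_zero.mpr ((div_lt_one hx).mpr h)
    · rw [if_pos h, if_neg, mul_one]
      rw [Nat.floor_eq_zero, not_lt, le_div_iff₀ hx, one_mul]
      exact h
  · have h3 : θ / x < (n:ℝ) + 1 := by
      rw [div_lt_iff₀ hx]; linarith [h2.2]
    have h4 : ⌊θ / x⌋₊ < n + 1 := by
      rw [Nat.floor_lt (by have := h2.1; positivity)]
      exact_mod_cast h3
    omega

lemma err_seg {s : Finset ℝ} {c : ℝ → ℝ} {a b : ℝ} (h0 : 0 ≤ a) (hab : a ≤ b) (h1 : b ≤ 1) :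
    ∫ x in a..b, |1 - comb s c x| ≤ ∫ x in (0 : ℝ)..1, |1 - comb s c x| :=
  intervalIntegral.integral_mono_interval h0 hab h1
    (Eventually.of_forall fun x => abs_nonneg _) (err_int s c 0 1)

lemma err_shift {s : Finset ℝ} {c : ℝ → ℝ} {m : ℝ} (hm : 1 ≤ m) {d δ : ℝ} (hδ : 0 ≤ δ) (h0 : 0 ≤ d)
    (h1 : d + m * δ ≤ 1) :
    ∫ t in (0 : ℝ)..δ, |1 - comb s c (m * t + d)| ≤ ∫ x in (0 : ℝ)..1, |1 - comb s c x| := by
  have hm0 : 0 < m := by linarith
  rw [intervalIntegral.integral_comp_mul_add (fun x => |1 - comb s c x|) hm0.ne' d, smul_eq_mul]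
  have h2 : 0 ≤ ∫ x in m * 0 + d..m * δ + d, |1 - comb s c x| :=
    intervalIntegral.integral_nonneg (by nlinarith) fun x _ => abs_nonneg _
  have h3 := err_seg (s := s) (c := c) (a := m * 0 + d) (b := m * δ + d) (by linarith) (by nlinarith)
    (by linarith)
  have h4 : m⁻¹ ≤ 1 := inv_le_one_of_one_le₀ hm
  calc m⁻¹ * ∫ x in m * 0 + d..m * δ + d, |1 - comb s c x|
      ≤ 1 * ∫ x in m * 0 + d..m * δ + d, |1 - comb s c x| := mul_le_mul_of_nonneg_right h4 h2
    _ ≤ _ := by rw [one_mul]; exact h3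

lemma err_shift' {s : Finset ℝ} {c : ℝ → ℝ} {m : ℝ} (hm : 1 ≤ m) {d δ : ℝ} (hδ : 0 ≤ δ) (h0 : 0 ≤ d - m * δ)
    (h1 : d ≤ 1) :
    ∫ t in (0 : ℝ)..δ, |1 - comb s c (d - m * t)| ≤ ∫ x in (0 : ℝ)..1, |1 - comb s c x| := by
  have hm0 : 0 < m := by linarith
  rw [intervalIntegral.integral_comp_sub_mul (fun x => |1 - comb s c x|) hm0.ne' d, smul_eq_mul]
  have h2 : 0 ≤ ∫ x in d - m * δ..d - m * 0, |1 - comb s c x| :=
    intervalIntegral.integral_nonneg (by nlinarith) fun x _ => abs_nonneg _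
  have h3 := err_seg (s := s) (c := c) (a := d - m * δ) (b := d - m * 0) (by linarith) (by nlinarith)
    (by linarith)
  have h4 : m⁻¹ ≤ 1 := inv_le_one_of_one_le₀ hm
  calc m⁻¹ * ∫ x in d - m * δ..d - m * 0, |1 - comb s c x|
      ≤ 1 * ∫ x in d - m * δ..d - m * 0, |1 - comb s c x| := mul_le_mul_of_nonneg_right h4 h2
    _ ≤ _ := by rw [one_mul]; exact h3

lemma err_int_shift (s : Finset ℝ) (c : ℝ → ℝ) (m d a b : ℝ) :
    IntervalIntegrable (fun t => |1 - comb s c (m * t + d)|) volume a b := by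
  refine (intervalIntegrable_const (c := 1 + ∑ θ ∈ s, |c θ|)).mono_fun
    ((measurable_const.sub ((comb_meas s c).comp (by fun_prop))).abs.aestronglyMeasurable) ?_
  refine Eventually.of_forall fun x => ?_
  have h1 := comb_abs s c (m * x + d)
  have h2 : 0 ≤ ∑ θ ∈ s, |c θ| := Finset.sum_nonneg fun _ _ => abs_nonneg _
  simp only [Real.norm_eq_abs, abs_abs]
  rw [abs_of_nonneg (by linarith : (0:ℝ) ≤ 1 + ∑ θ ∈ s, |c θ|)]
  calc |1 - comb s c (m * x + d)| ≤ |1| + |comb s c (m * x + d)| := abs_sub _ _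
    _ ≤ 1 + ∑ θ ∈ s, |c θ| := by rw [abs_one]; linarith

/-- the pointwise inequality near `1 / n` -/
lemma local_pt {s : Finset ℝ} {c : ℝ → ℝ} (hs : ∀ θ ∈ s, 0 < θ ∧ θ ≤ 1) (hc : ∑ θ ∈ s, c θ * θ = 0)
    {n : ℕ} (hn : Squarefree n) {δ : ℝ} (hδn : δ * (2 * (n : ℝ) ^ 2) ≤ 1)
    (hgap : ∀ θ ∈ s, ¬ |θ - 1 / n| < δ) {t : ℝ} (ht0 : 0 < t) (ht : t < δ) :
    1 ≤ |1 - comb s c (1 - n * t)| + ∑ m ∈ Finset.Ico 1 n, (|1 - comb s c (m * t + m / n)| +
      |1 - comb s c (m / n - m * t)|) := by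
  have hn0 : 1 ≤ n := Nat.pos_of_ne_zero hn.ne_zero
  have hnr : (1:ℝ) ≤ n := by exact_mod_cast hn0
  have hn2 : (0:ℝ) < n := by linarith
  have htn : t * (2 * (n:ℝ) ^ 2) < 1 := by nlinarith
  have htn1 : n * t < 1 := by nlinarith
  have e1 := comb_inv hs hc (x := 1 / n - t) (n := n) (by
    rw [sub_pos, lt_div_iff₀ hn2]; linarith) (by
    have : ((n:ℝ) + 1) * (1 / n - t) = 1 + 1 / n - (n + 1) * t := by field_simp
    rw [this]
    have h3 : ((n:ℝ) + 1) * t < 1 / n := by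
      rw [lt_div_iff₀ hn2]; nlinarith
    linarith)
  have e2 := comb_inv hs hc (x := 1 / n + t) (n := n) (by positivity) (by
    have : ((n:ℝ) + 1) * (1 / n + t) = 1 + 1 / n + (n + 1) * t := by field_simp
    rw [this]
    have h3 : (0:ℝ) < 1 / n := by positivity
    nlinarith)
  have hfil : s.filter (fun θ => 1 / (n:ℝ) - t ≤ θ) = s.filter (fun θ => 1 / (n:ℝ) + t ≤ θ) := by
    refine Finset.filter_congr fun θ hθ => ?_
    constructor
    · intro h
      by_contra hcon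
      exact hgap θ hθ (abs_lt.mpr ⟨by linarith, by linarith⟩)
    · intro h; linarith
  rw [hfil] at e1
  have e3 : ∑ m ∈ Finset.Icc 1 n, (ArithmeticFunction.moebius m : ℝ) * comb s c (m * (1 / n - t)) =
      ∑ m ∈ Finset.Icc 1 n, (ArithmeticFunction.moebius m : ℝ) * comb s c (m * (1 / n + t)) := by
    rw [e1, e2]
  have hIcc : ∀ g : ℕ → ℝ, ∑ m ∈ Finset.Icc 1 n, g m = ∑ m ∈ Finset.Ico 1 n, g m + g n := by
    intro g
    rw [← Finset.Ico_insert_right hn0, Finset.sum_insert (by simp)]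
    ring
  rw [hIcc, hIcc] at e3
  have hz : comb s c (n * (1 / n + t)) = 0 := comb_zero hs hc (by
    have : (n:ℝ) * (1 / n + t) = 1 + n * t := by field_simp
    rw [this]; nlinarith)
  rw [hz, mul_zero, add_zero] at e3
  have hlast : (n:ℝ) * (1 / n - t) = 1 - n * t := by field_simp
  rw [hlast] at e3
  have e4 : (ArithmeticFunction.moebius n : ℝ) = (ArithmeticFunction.moebius n : ℝ) * (1 - comb s c (1 - n * t)) +
      ∑ m ∈ Finset.Ico 1 n, (ArithmeticFunction.moebius m : ℝ) *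
        ((1 - comb s c (m / n - m * t)) - (1 - comb s c (m * t + m / n))) := by
    have e5 : ∑ m ∈ Finset.Ico 1 n, (ArithmeticFunction.moebius m : ℝ) *
        ((1 - comb s c (m / n - m * t)) - (1 - comb s c (m * t + m / n))) =
        ∑ m ∈ Finset.Ico 1 n, (ArithmeticFunction.moebius m : ℝ) * comb s c (m * (1 / n + t)) -
        ∑ m ∈ Finset.Ico 1 n, (ArithmeticFunction.moebius m : ℝ) * comb s c (m * (1 / n - t)) := by
      rw [← Finset.sum_sub_distrib]
      refine Finset.sum_congr rfl fun m _ => ?_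
      have a1 : (m:ℝ) / n - m * t = m * (1 / n - t) := by ring
      have a2 : (m:ℝ) * t + m / n = m * (1 / n + t) := by ring
      rw [a1, a2]; ring
    rw [e5]
    linarith
  have hmu : |(ArithmeticFunction.moebius n : ℝ)| = 1 := by
    have := ArithmeticFunction.abs_moebius_eq_one_of_squarefree hn
    exact_mod_cast this
  have hmu1 : ∀ m : ℕ, |(ArithmeticFunction.moebius m : ℝ)| ≤ 1 := by
    intro m
    exact_mod_cast ArithmeticFunction.abs_moebius_le_one (n := m)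
  calc (1:ℝ) = |(ArithmeticFunction.moebius n : ℝ)| := hmu.symm
    _ ≤ |(ArithmeticFunction.moebius n : ℝ) * (1 - comb s c (1 - n * t))| +
      |∑ m ∈ Finset.Ico 1 n, (ArithmeticFunction.moebius m : ℝ) *
        ((1 - comb s c (m / n - m * t)) - (1 - comb s c (m * t + m / n)))| := by
        conv_lhs => rw [e4]
        exact abs_add_le _ _
    _ ≤ _ := by
      refine add_le_add ?_ ?_
      · rw [abs_mul, hmu, one_mul]
      · refine (Finset.abs_sum_le_sum_abs _ _).trans (Finset.sum_le_sum fun m _ => ?_)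
        rw [abs_mul]
        calc |(ArithmeticFunction.moebius m : ℝ)| * |(1 - comb s c (m / n - m * t)) - (1 - comb s c (m * t + m / n))|
            ≤ 1 * |(1 - comb s c (m / n - m * t)) - (1 - comb s c (m * t + m / n))| :=
              mul_le_mul_of_nonneg_right (hmu1 m) (abs_nonneg _)
          _ ≤ |1 - comb s c (m * t + m / n)| + |1 - comb s c (m / n - m * t)| := by
              have := abs_sub (1 - comb s c (m / n - m * t)) (1 - comb s c (m * t + m / n))
              linarith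

/-- **the local lower bound** -/
theorem local_bound {s : Finset ℝ} {c : ℝ → ℝ} (hs : ∀ θ ∈ s, 0 < θ ∧ θ ≤ 1) (hc : ∑ θ ∈ s, c θ * θ = 0)
    {n : ℕ} (hn : Squarefree n) {δ : ℝ} (hδ : 0 < δ) (hδn : δ * (2 * (n : ℝ) ^ 2) ≤ 1)
    (hgap : ∀ θ ∈ s, ¬ |θ - 1 / n| < δ) :
    δ / (2 * n) ≤ ∫ x in (0 : ℝ)..1, |1 - comb s c x| := by
  have hn0 : 1 ≤ n := Nat.pos_of_ne_zero hn.ne_zero
  have hnr : (1:ℝ) ≤ n := by exact_mod_cast hn0
  have hn2 : (0:ℝ) < n := by linarith
  set J := ∫ x in (0 : ℝ)..1, |1 - comb s c x| with hJ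
  have hJ0 : 0 ≤ J := intervalIntegral.integral_nonneg zero_le_one fun x _ => abs_nonneg _
  have i0 : IntervalIntegrable (fun t : ℝ => |1 - comb s c (1 - n * t)|) volume 0 δ := by
    have := err_int_shift s c (-n) 1 0 δ
    refine this.congr (fun t _ => ?_)
    show |1 - comb s c (-n * t + 1)| = |1 - comb s c (1 - n * t)|
    congr 3; ring
  have i1 : ∀ m : ℕ, IntervalIntegrable (fun t : ℝ => |1 - comb s c (m * t + m / n)| +
      |1 - comb s c (m / n - m * t)|) volume 0 δ := by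
    intro m
    refine (err_int_shift s c m (m / n) 0 δ).add ?_
    have := err_int_shift s c (-m) (m / n) 0 δ
    refine this.congr (fun t _ => ?_)
    show |1 - comb s c (-m * t + m / n)| = |1 - comb s c (m / n - m * t)|
    congr 3; ring
  have isum : IntervalIntegrable (fun t : ℝ => ∑ m ∈ Finset.Ico 1 n, (|1 - comb s c (m * t + m / n)| +
      |1 - comb s c (m / n - m * t)|)) volume 0 δ := by
    have := IntervalIntegrable.sum (Finset.Ico 1 n) (fun m _ => i1 m)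
    refine this.congr (fun t _ => ?_)
    simp [Finset.sum_apply]
  have i2 : IntervalIntegrable (fun t : ℝ => |1 - comb s c (1 - n * t)| +
      ∑ m ∈ Finset.Ico 1 n, (|1 - comb s c (m * t + m / n)| + |1 - comb s c (m / n - m * t)|)) volume 0 δ :=
    i0.add isum
  have h1 : δ ≤ ∫ t in (0:ℝ)..δ, (|1 - comb s c (1 - n * t)| +
      ∑ m ∈ Finset.Ico 1 n, (|1 - comb s c (m * t + m / n)| + |1 - comb s c (m / n - m * t)|)) := by
    have h2 : ∫ t in (0:ℝ)..δ, (1:ℝ) = δ := by simp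
    conv_lhs => rw [← h2]
    refine intervalIntegral.integral_mono_on_of_le_Ioo hδ.le intervalIntegrable_const i2 fun t ht => ?_
    exact local_pt hs hc hn hδn hgap ht.1 ht.2
  have hI2 : ∫ t in (0:ℝ)..δ, ∑ m ∈ Finset.Ico 1 n, (|1 - comb s c (m * t + m / n)| + |1 - comb s c (m / n - m * t)|) =
      ∑ m ∈ Finset.Ico 1 n, ∫ t in (0:ℝ)..δ, (|1 - comb s c (m * t + m / n)| + |1 - comb s c (m / n - m * t)|) :=
    intervalIntegral.integral_finsetSum fun m _ => i1 m
  rw [intervalIntegral.integral_add i0 isum, hI2] at h1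
  have b0 : ∫ t in (0:ℝ)..δ, |1 - comb s c (1 - n * t)| ≤ J :=
    err_shift' hnr hδ.le (by nlinarith) le_rfl
  have b1 : ∀ m ∈ Finset.Ico 1 n, ∫ t in (0:ℝ)..δ, (|1 - comb s c (m * t + m / n)| + |1 - comb s c (m / n - m * t)|) ≤ 2 * J := by
    intro m hm
    rw [Finset.mem_Ico] at hm
    have hm1 : (1:ℝ) ≤ m := by exact_mod_cast hm.1
    have hmn : (m:ℝ) + 1 ≤ n := by exact_mod_cast hm.2
    have i3 : IntervalIntegrable (fun t : ℝ => |1 - comb s c (m / n - m * t)|) volume 0 δ := by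
      have := err_int_shift s c (-m) (m / n) 0 δ
      refine this.congr (fun t _ => ?_)
      show |1 - comb s c (-m * t + m / n)| = |1 - comb s c (m / n - m * t)|
      congr 3; ring
    rw [intervalIntegral.integral_add (err_int_shift s c m (m / n) 0 δ) i3]
    have c1 : ∫ t in (0:ℝ)..δ, |1 - comb s c (m * t + m / n)| ≤ J := by
      refine err_shift hm1 hδ.le (by positivity) ?_
      have h5 : (m:ℝ) / n + m * δ = (m * (1 + n * δ)) / n := by field_simp
      rw [h5, div_le_one hn2]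
      nlinarith
    have c2 : ∫ t in (0:ℝ)..δ, |1 - comb s c (m / n - m * t)| ≤ J := by
      refine err_shift' hm1 hδ.le ?_ ?_
      · have h5 : (m:ℝ) / n - m * δ = (m * (1 - n * δ)) / n := by field_simp
        rw [h5]
        have h6 : 0 ≤ 1 - n * δ := by nlinarith
        positivity
      · rw [div_le_one hn2]; linarith
    linarith
  have b2 := Finset.sum_le_sum b1
  rw [Finset.sum_const, Nat.card_Ico, nsmul_eq_mul, Nat.cast_sub hn0, Nat.cast_one] at b2
  rw [div_le_iff₀ (by positivity)]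
  nlinarith

/-- from the `L^p` norm to the `L^1` norm -/
lemma tau_ineq {x τ p : ℝ} (hx : 0 ≤ x) (hτ : 0 < τ) (hp : 1 ≤ p) : x ≤ τ + τ ^ (1 - p) * x ^ p := by
  rcases le_or_gt x τ with h | h
  · have : 0 ≤ τ ^ (1 - p) * x ^ p := by positivity
    linarith
  · have h1 : τ ^ (p - 1) ≤ x ^ (p - 1) := Real.rpow_le_rpow hτ.le h.le (by linarith)
    have h2 : x ^ p = x ^ (p - 1) * x := by
      rw [← Real.rpow_add_one (by linarith)]; congr 1; ring
    have h3 : τ ^ (1 - p) * τ ^ (p - 1) = 1 := by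
      rw [← Real.rpow_add hτ]; simp
    have h4 : 0 < τ ^ (1 - p) := Real.rpow_pos_of_pos hτ _
    have h5 : x ≤ τ ^ (1 - p) * x ^ p := by
      rw [h2, ← mul_assoc]
      have : 1 ≤ τ ^ (1 - p) * x ^ (p - 1) := by
        calc (1:ℝ) = τ ^ (1 - p) * τ ^ (p - 1) := h3.symm
          _ ≤ _ := mul_le_mul_of_nonneg_left h1 h4.le
      nlinarith
    linarith

lemma errp_int {p : ℝ} (hp : 0 ≤ p) (s : Finset ℝ) (c : ℝ → ℝ) (a b : ℝ) :
    IntervalIntegrable (fun x => |1 - comb s c x| ^ p) volume a b := by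
  refine (intervalIntegrable_const (c := (1 + ∑ θ ∈ s, |c θ|) ^ p)).mono_fun
    (((measurable_const.sub (comb_meas s c)).abs.pow_const p).aestronglyMeasurable) ?_
  refine Eventually.of_forall fun x => ?_
  have h1 := comb_abs s c x
  have h2 : 0 ≤ ∑ θ ∈ s, |c θ| := Finset.sum_nonneg fun _ _ => abs_nonneg _
  have h3 : |1 - comb s c x| ≤ 1 + ∑ θ ∈ s, |c θ| := by
    calc |1 - comb s c x| ≤ |1| + |comb s c x| := abs_sub _ _
      _ ≤ 1 + ∑ θ ∈ s, |c θ| := by rw [abs_one]; linarith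
  show ‖|1 - comb s c x| ^ p‖ ≤ ‖(1 + ∑ θ ∈ s, |c θ|) ^ p‖
  rw [Real.norm_of_nonneg (Real.rpow_nonneg (abs_nonneg _) p),
    Real.norm_of_nonneg (Real.rpow_nonneg (by linarith) p)]
  exact Real.rpow_le_rpow (abs_nonneg _) h3 hp

lemma err_le {p : ℝ} (hp : 1 ≤ p) (s : Finset ℝ) (c : ℝ → ℝ) {τ : ℝ} (hτ : 0 < τ) :
    ∫ x in (0 : ℝ)..1, |1 - comb s c x| ≤ τ + τ ^ (1 - p) * ∫ x in (0 : ℝ)..1, |1 - comb s c x| ^ p := by
  have h1 : ∫ x in (0 : ℝ)..1, |1 - comb s c x| ≤ ∫ x in (0 : ℝ)..1, (τ + τ ^ (1 - p) * |1 - comb s c x| ^ p) := by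
    refine intervalIntegral.integral_mono_on zero_le_one (err_int s c 0 1)
      (intervalIntegrable_const.add ((errp_int (by linarith) s c 0 1).const_mul _)) fun x _ => ?_
    exact tau_ineq (abs_nonneg _) hτ hp
  rw [intervalIntegral.integral_add intervalIntegrable_const ((errp_int (by linarith) s c 0 1).const_mul _),
    intervalIntegral.integral_const_mul] at h1
  simpa using h1

/-- **necessity of the dilations `1 / n`, `n` squarefree** -/
theorem closure_of_approx {p : ℝ} (hp : 1 ≤ p) {A : Set ℝ} (hA : ∀ θ ∈ A, 0 < θ ∧ θ ≤ 1) (h : Approx p A)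
    {n : ℕ} (hn : Squarefree n) : (1 / (n : ℝ)) ∈ closure A := by
  by_contra hcl
  have hn0 : 1 ≤ n := Nat.pos_of_ne_zero hn.ne_zero
  have hnr : (1:ℝ) ≤ n := by exact_mod_cast hn0
  rw [Metric.mem_closure_iff] at hcl
  push Not at hcl
  obtain ⟨δ₀, hδ₀, hd⟩ := hcl
  set δ : ℝ := min δ₀ (1 / (2 * (n:ℝ) ^ 2)) with hδ
  have hδ0 : 0 < δ := lt_min hδ₀ (by positivity)
  have hδ1 : δ * (2 * (n:ℝ) ^ 2) ≤ 1 := by
    have := min_le_right δ₀ (1 / (2 * (n:ℝ) ^ 2))
    rw [le_div_iff₀ (by positivity)] at this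
    exact this
  set η : ℝ := δ / (2 * n) with hη
  have hη0 : 0 < η := by positivity
  set τ : ℝ := η / 4 with hτ
  have hτ0 : 0 < τ := by positivity
  obtain ⟨s, c, h1, h2, h3⟩ := h (η / 4 / τ ^ (1 - p)) (by positivity)
  have h4 := local_bound (fun θ hθ => hA θ (h1 θ hθ)) h2 hn hδ0 hδ1 (fun θ hθ hlt => by
    have h5 := hd θ (h1 θ hθ)
    rw [Real.dist_eq, abs_sub_comm] at h5
    have h6 : δ ≤ δ₀ := min_le_left _ _
    linarith)
  have h5 := err_le hp s c hτ0
  have h6 : τ ^ (1 - p) * ∫ x in (0 : ℝ)..1, |1 - comb s c x| ^ p < η / 4 := by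
    rw [lt_div_iff₀ (Real.rpow_pos_of_pos hτ0 _)] at h3
    linarith
  linarith

end

end Pool.Agent.Helper39.NB
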