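import Pool.Agent.Helper39.NB.Loc
import Pool.Graph.R_pool_sql_team_seeded_5cf16337.K3h56.BN.Van

/-!
A zero of zeta to the right of `1 / p` prevents the approximation in `L^p(0,1)` (Beurling).
-/

set_option autoImplicit false

open MeasureTheory Filter Topology Set

namespace Pool.Agent.Helper39.NB

open Pool.Agent

noncomputable section

lemma Hf_val {s : ℂ} (hs : 0 < s.re) (h1 : s ≠ 1) :
    H295R2.Hf s = 1 / (s - 1) - riemannZeta s / s := by
  have h0 : s ≠ 0 := by rintro rfl; simp at hs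
  have h2 := H295R2.Zs_eq_Zt hs
  have h3 := H295R2.Zs_eq h1
  have h4 : s - 1 ≠ 0 := sub_ne_zero.mpr h1
  rw [← h3] at h2
  unfold H295R2.Zt at h2
  field_simp
  linear_combination h2

/-- the integral of `{θ y} y ^ (-s-1)` over `(1, ∞)` -/
lemma pair_fract {s : ℂ} (hs : 0 < s.re) (h1 : s ≠ 1) {θ : ℝ} (h0 : 0 < θ) (hθ : θ ≤ 1) :
    IntegrableOn (fun y : ℝ => ((Int.fract (θ * y) : ℝ) : ℂ) * (y : ℂ) ^ (-(s + 1))) (Ioi 1) ∧
    ∫ y in Ioi (1:ℝ), ((Int.fract (θ * y) : ℝ) : ℂ) * (y : ℂ) ^ (-(s + 1)) =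
      θ / (s - 1) - (θ : ℂ) ^ s * riemannZeta s / s := by
  have hs0 : s ≠ 0 := by rintro rfl; simp at hs
  have hs1 : s - 1 ≠ 0 := sub_ne_zero.mpr h1
  have hθc : (θ : ℂ) ≠ 0 := by exact_mod_cast h0.ne'
  have hint : IntegrableOn (fun y : ℝ => ((Int.fract (θ * y) : ℝ) : ℂ) * (y : ℂ) ^ (-(s + 1))) (Ioi 1) := by
    have h2 : IntegrableOn (fun t : ℝ => t ^ (-(s.re + 1))) (Ioi (1:ℝ)) :=
      integrableOn_Ioi_rpow_of_lt (by linarith) one_pos
    refine h2.mono' ?_ ?_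
    · refine AEStronglyMeasurable.mul ?_ ?_
      · exact (Complex.measurable_ofReal.comp (measurable_fract.comp (measurable_const_mul θ))).aestronglyMeasurable
      · refine ContinuousOn.aestronglyMeasurable (fun t ht => ?_) measurableSet_Ioi
        have ht0 : 0 < t := lt_trans one_pos ht
        exact (Complex.continuousAt_ofReal_cpow_const t _ (Or.inr ht0.ne')).continuousWithinAt
    · refine (ae_restrict_iff' measurableSet_Ioi).mpr (Eventually.of_forall fun t ht => ?_)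
      have ht0 : 0 < t := lt_trans one_pos ht
      rw [norm_mul, Complex.norm_real, Real.norm_of_nonneg (Int.fract_nonneg _),
        Complex.norm_cpow_eq_rpow_re_of_pos ht0]
      have : (-(s + 1)).re = -(s.re + 1) := by simp
      rw [this]
      have h2 := (Int.fract_lt_one (θ * t)).le
      have h3 : 0 ≤ t ^ (-(s.re + 1)) := by positivity
      nlinarith
  refine ⟨hint, ?_⟩
  have h1θ : 1 ≤ 1 / θ := by rw [le_div_iff₀ h0]; linarith
  have hsplit := intervalIntegral.integral_interval_add_Ioi hint (hint.mono_set (Ioi_subset_Ioi h1θ))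
  rw [← hsplit]
  -- the first part
  have e1 : ∫ y in (1:ℝ)..1 / θ, ((Int.fract (θ * y) : ℝ) : ℂ) * (y : ℂ) ^ (-(s + 1)) =
      θ * (((1 / θ : ℝ) : ℂ) ^ (1 - s) - 1) / (1 - s) := by
    have e2 : ∫ y in (1:ℝ)..1 / θ, ((Int.fract (θ * y) : ℝ) : ℂ) * (y : ℂ) ^ (-(s + 1)) =
        ∫ y in (1:ℝ)..1 / θ, (θ : ℂ) * (y : ℂ) ^ (-s) := by
      refine intervalIntegral.integral_congr_ae ?_
      have hne : ∀ᵐ y : ℝ, y ≠ 1 / θ := by
        simp [ae_iff, measure_singleton]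
      filter_upwards [hne] with y hy hy2
      rw [uIoc_of_le h1θ] at hy2
      have hy0 : 0 < y := by linarith [hy2.1]
      have hy3 : y < 1 / θ := lt_of_le_of_ne hy2.2 hy
      rw [lt_div_iff₀ h0] at hy3
      rw [Int.fract_eq_self.mpr ⟨by positivity, by linarith⟩]
      have hyc : (y : ℂ) ≠ 0 := by exact_mod_cast hy0.ne'
      have : (y : ℂ) ^ (-s) = y * (y : ℂ) ^ (-(s + 1)) := by
        rw [show -s = 1 + -(s + 1) by ring, Complex.cpow_add _ _ hyc, Complex.cpow_one]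
      rw [this]; push_cast; ring
    rw [e2, intervalIntegral.integral_const_mul, integral_cpow]
    · have hh : -s + 1 = 1 - s := by ring
      rw [hh]
      simp only [Complex.ofReal_one, Complex.one_cpow]
      ring
    · right
      refine ⟨fun h => h1 (by linear_combination -h), ?_⟩
      rw [uIcc_of_le h1θ]
      simp
  -- the second part
  have e3 : ∫ y in Ioi (1 / θ), ((Int.fract (θ * y) : ℝ) : ℂ) * (y : ℂ) ^ (-(s + 1)) =
      (θ : ℂ) ^ s * H295R2.Hf s := by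
    have h2 := integral_comp_mul_left_Ioi (fun u : ℝ => ((Int.fract u : ℝ) : ℂ) * (u : ℂ) ^ (-(s + 1))) (1 / θ) h0
    rw [mul_one_div_cancel h0.ne', ← H295R2.Hf_eq] at h2
    have h3 : ∫ y in Ioi (1 / θ), ((Int.fract (θ * y) : ℝ) : ℂ) * (((θ * y : ℝ)) : ℂ) ^ (-(s + 1)) =
        (θ : ℂ) ^ (-(s + 1)) * ∫ y in Ioi (1 / θ), ((Int.fract (θ * y) : ℝ) : ℂ) * (y : ℂ) ^ (-(s + 1)) := by
      rw [← integral_const_mul]
      refine setIntegral_congr_fun measurableSet_Ioi fun y hy => ?_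
      have hy0 : 0 < y := lt_trans (by positivity) hy
      rw [Complex.ofReal_mul, Complex.mul_cpow_ofReal_nonneg h0.le hy0.le]
      ring
    rw [h3] at h2
    have h4 : (θ : ℂ) ^ (-(s + 1)) ≠ 0 := by
      rw [Ne, Complex.cpow_eq_zero_iff]; simp [hθc]
    have h5 : (θ : ℂ) ^ s * (θ : ℂ) ^ (-(s + 1)) = (θ : ℂ)⁻¹ := by
      rw [← Complex.cpow_add _ _ hθc, show s + -(s + 1) = -1 by ring, Complex.cpow_neg_one]
    refine mul_left_cancel₀ h4 ?_
    rw [h2, Complex.real_smul, Complex.ofReal_inv]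
    linear_combination (-H295R2.Hf s) * h5
  rw [e1, e3, Hf_val hs h1]
  have h6 : ((1 / θ : ℝ) : ℂ) ^ (1 - s) = (θ : ℂ) ^ s / θ := by
    rw [one_div, Complex.ofReal_inv, Complex.inv_cpow _ _ (by rw [Complex.arg_ofReal_of_nonneg h0.le]; exact Real.pi_pos.ne),
      ← Complex.cpow_neg, show -(1 - s) = s - 1 by ring, Complex.cpow_sub _ _ hθc, Complex.cpow_one]
  rw [h6]
  have h7 : (1:ℂ) - s ≠ 0 := fun h => h1 (by linear_combination -h)
  field_simp
  ring

/-- the integrals in the variable `y = 1 / x` -/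
lemma subst_inv (F : ℝ → ℝ) : ∫ x in (0:ℝ)..1, F x = ∫ y in Ioi (1:ℝ), y ^ (-(2:ℝ)) * F (1 / y) := by
  have h := integral_comp_rpow_Ioi (fun x => (Ioo (0:ℝ) 1).indicator F x) (p := -1) (by norm_num)
  have e1 : ∫ y in Ioi (0:ℝ), (Ioo (0:ℝ) 1).indicator F y = ∫ x in (0:ℝ)..1, F x := by
    rw [intervalIntegral.integral_of_le zero_le_one, integral_Ioc_eq_integral_Ioo,
      setIntegral_indicator measurableSet_Ioo]
    congr 2
    ext x
    simp only [mem_inter_iff, mem_Ioi, mem_Ioo]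
    constructor
    · rintro ⟨_, h⟩; exact h
    · intro h; exact ⟨h.1, h⟩
  rw [e1] at h
  rw [← h]
  have e2 : ∫ y in Ioi (1:ℝ), y ^ (-(2:ℝ)) * F (1 / y) =
      ∫ y in Ioi (0:ℝ), (Ioi (1:ℝ)).indicator (fun y => y ^ (-(2:ℝ)) * F (1 / y)) y := by
    rw [setIntegral_indicator measurableSet_Ioi]
    congr 2
    ext x
    simp only [mem_inter_iff, mem_Ioi]
    constructor
    · intro h; exact ⟨by linarith, h⟩
    · rintro ⟨_, h⟩; exact h
  rw [e2]
  refine setIntegral_congr_fun measurableSet_Ioi fun y hy => ?_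
  have hy0 : (0:ℝ) < y := hy
  simp only [smul_eq_mul]
  have e3 : y ^ (-1:ℝ) = 1 / y := by rw [Real.rpow_neg_one, one_div]
  rw [e3]
  by_cases h1 : 1 < y
  · rw [indicator_of_mem (show 1 / y ∈ Ioo (0:ℝ) 1 from ⟨by positivity, by rw [div_lt_one hy0]; exact h1⟩),
      indicator_of_mem (show y ∈ Ioi (1:ℝ) from h1)]
    norm_num
  · have h2 : 1 / y ∉ Ioo (0:ℝ) 1 := by
      rintro ⟨_, h3⟩
      rw [div_lt_one hy0] at h3
      exact h1 h3
    rw [indicator_of_notMem h2, indicator_of_notMem (show y ∉ Ioi (1:ℝ) from h1)]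
    simp

/-- **necessity of the zero-free half plane** -/
theorem zero_free_of_approx {p : ℝ} (hp : 1 < p) {A : Set ℝ} (hA : ∀ θ ∈ A, 0 < θ ∧ θ ≤ 1) (h : Approx p A)
    {ρ : ℂ} (hρ : 1 / p < ρ.re) : riemannZeta ρ ≠ 0 := by
  intro hz
  have hp0 : 0 < p := by linarith
  have hβ0 : 0 < ρ.re := lt_trans (by positivity) hρ
  have hβ1 : ρ.re < 1 := by
    by_contra hc
    exact riemannZeta_ne_zero_of_one_le_re (not_lt.1 hc) hz
  have h1 : ρ ≠ 1 := by rintro rfl; simp at hβ1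
  have h0 : ρ ≠ 0 := by rintro rfl; simp at hβ0
  set β := ρ.re with hβ
  rw [div_lt_iff₀ hp0] at hρ
  -- the exponent
  set a : ℝ := (1 - β) / (p - 1) with ha
  have ha0 : a < β := by rw [ha, div_lt_iff₀ (by linarith)]; nlinarith
  have hp1 : p - 1 ≠ 0 := by
    have : 0 < p - 1 := by linarith
    exact this.ne'
  have ha1 : a * (1 - p) = β - 1 := by
    rw [ha, show 1 - p = -(p - 1) by ring, mul_neg, div_mul_cancel₀ _ hp1]; ring
  set κ : ℝ := 1 / ‖ρ‖ with hκ
  have hκ0 : 0 < κ := by have := norm_pos_iff.mpr h0; positivity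
  set τ : ℝ := κ * (β - a) / 4 with hτ
  have hτ0 : 0 < τ := by have : 0 < β - a := by linarith
                         positivity
  obtain ⟨s, c, hs, hc, he⟩ := h (κ / 4 / τ ^ (1 - p)) (by positivity)
  have hs' := fun θ hθ => hA θ (hs θ hθ)
  -- the pairing
  have hy2 : ∀ y : ℝ, comb s c (1 / y) = ∑ θ ∈ s, c θ * Int.fract (θ * y) := by
    intro y; unfold comb; simp [div_eq_mul_inv]
  have hi1 : IntegrableOn (fun y : ℝ => (y : ℂ) ^ (-(ρ + 1))) (Ioi 1) := by
    refine (integrableOn_Ioi_cpow_of_lt ?_ one_pos)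
    simp; exact hβ0
  have hP : ∫ y in Ioi (1:ℝ), ((1 - comb s c (1 / y) : ℝ) : ℂ) * (y : ℂ) ^ (-(ρ + 1)) = 1 / ρ := by
    have e1 : ∀ y : ℝ, ((1 - comb s c (1 / y) : ℝ) : ℂ) * (y : ℂ) ^ (-(ρ + 1)) =
        (y : ℂ) ^ (-(ρ + 1)) - ∑ θ ∈ s, (c θ : ℂ) * (((Int.fract (θ * y) : ℝ) : ℂ) * (y : ℂ) ^ (-(ρ + 1))) := by
      intro y
      rw [hy2]
      push_cast
      rw [sub_mul, one_mul, Finset.sum_mul]
      congr 1
      refine Finset.sum_congr rfl fun θ _ => ?_
      ring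
    simp_rw [e1]
    rw [integral_sub hi1 (integrable_finsetSum _ fun θ hθ => ((pair_fract hβ0 h1 (hs' θ hθ).1 (hs' θ hθ).2).1.const_mul _)),
      integral_finsetSum _ fun θ hθ => ((pair_fract hβ0 h1 (hs' θ hθ).1 (hs' θ hθ).2).1.const_mul _)]
    have e2 : ∑ θ ∈ s, ∫ y in Ioi (1:ℝ), (c θ : ℂ) * (((Int.fract (θ * y) : ℝ) : ℂ) * (y : ℂ) ^ (-(ρ + 1))) = 0 := by
      have e3 : ∀ θ ∈ s, ∫ y in Ioi (1:ℝ), (c θ : ℂ) * (((Int.fract (θ * y) : ℝ) : ℂ) * (y : ℂ) ^ (-(ρ + 1))) =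
          ((c θ * θ : ℝ) : ℂ) * (1 / (ρ - 1)) := by
        intro θ hθ
        rw [integral_const_mul, (pair_fract hβ0 h1 (hs' θ hθ).1 (hs' θ hθ).2).2, hz]
        push_cast; ring
      rw [Finset.sum_congr rfl e3, ← Finset.sum_mul, ← Complex.ofReal_sum, hc]
      simp
    rw [e2, sub_zero, integral_Ioi_cpow_of_lt (by simp; exact hβ0) one_pos]
    simp only [Complex.ofReal_one, Complex.one_cpow]
    have : -(ρ + 1) + 1 = -ρ := by ring
    rw [this]
    field_simp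
  -- the bound
  have hE : ∀ y : ℝ, |1 - comb s c (1 / y)| ≤ 1 + ∑ θ ∈ s, |c θ| := fun y =>
    (abs_sub _ _).trans (by rw [abs_one]; linarith [comb_abs s c (1 / y)])
  have hmeas : Measurable (fun y : ℝ => |1 - comb s c (1 / y)|) :=
    (measurable_const.sub ((comb_meas s c).comp (measurable_const.div measurable_id))).abs
  have hC0 : 0 ≤ 1 + ∑ θ ∈ s, |c θ| := by positivity
  have hi2 : IntegrableOn (fun y : ℝ => y ^ (-(2:ℝ)) * |1 - comb s c (1 / y)| ^ p) (Ioi 1) := by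
    have h2 : IntegrableOn (fun t : ℝ => t ^ (-(2:ℝ)) * (1 + ∑ θ ∈ s, |c θ|) ^ p) (Ioi (1:ℝ)) :=
      (integrableOn_Ioi_rpow_of_lt (by norm_num) one_pos).mul_const _
    refine h2.mono' ?_ ?_
    · exact ((measurable_id.pow_const _).mul (hmeas.pow_const p)).aestronglyMeasurable
    · refine (ae_restrict_iff' measurableSet_Ioi).mpr (Eventually.of_forall fun t ht => ?_)
      have ht0 : 0 < t := lt_trans one_pos ht
      rw [Real.norm_of_nonneg (by positivity)]
      have := Real.rpow_le_rpow (abs_nonneg _) (hE t) hp0.le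
      gcongr
  have hi3 : IntegrableOn (fun y : ℝ => τ * y ^ (a - β - 1)) (Ioi 1) :=
    (integrableOn_Ioi_rpow_of_lt (by linarith) one_pos).const_mul _
  have hB : ‖∫ y in Ioi (1:ℝ), ((1 - comb s c (1 / y) : ℝ) : ℂ) * (y : ℂ) ^ (-(ρ + 1))‖ ≤
      ∫ y in Ioi (1:ℝ), (τ * y ^ (a - β - 1) + τ ^ (1 - p) * (y ^ (-(2:ℝ)) * |1 - comb s c (1 / y)| ^ p)) := by
    refine norm_integral_le_of_norm_le (hi3.add (hi2.const_mul _)) ?_
    refine (ae_restrict_iff' measurableSet_Ioi).mpr (Eventually.of_forall fun y hy => ?_)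
    have hy0 : 0 < y := lt_trans one_pos hy
    rw [norm_mul, Complex.norm_real, Real.norm_eq_abs, Complex.norm_cpow_eq_rpow_re_of_pos hy0]
    have e1 : (-(ρ + 1)).re = -(β + 1) := by simp [hβ]
    rw [e1]
    have h2 := tau_ineq (abs_nonneg (1 - comb s c (1 / y))) (τ := τ * y ^ a) (by positivity) hp.le
    have h3 := mul_le_mul_of_nonneg_right h2 (Real.rpow_nonneg hy0.le (-(β + 1)))
    refine h3.trans (le_of_eq ?_)
    rw [add_mul, Real.mul_rpow hτ0.le (Real.rpow_nonneg hy0.le a), ← Real.rpow_mul hy0.le, ha1]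
    congr 1
    · rw [mul_assoc, ← Real.rpow_add hy0]; congr 2; ring
    · have : y ^ (-(2:ℝ)) = y ^ (β - 1) * y ^ (-(β + 1)) := by
        rw [← Real.rpow_add hy0]; congr 1; ring
      rw [this]; ring
  rw [hP, integral_add hi3 (hi2.const_mul _), integral_const_mul, integral_const_mul,
    ← subst_inv (fun x => |1 - comb s c x| ^ p), integral_Ioi_rpow_of_lt (by linarith) one_pos] at hB
  rw [norm_div, norm_one, ← hκ, Real.one_rpow] at hB
  have h5 : τ * (-1 / (a - β - 1 + 1)) = κ / 4 := by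
    have : a - β ≠ 0 := by linarith
    rw [hτ, show a - β - 1 + 1 = a - β by ring]
    field_simp
    ring
  rw [h5] at hB
  have h6 : τ ^ (1 - p) * ∫ x in (0:ℝ)..1, |1 - comb s c x| ^ p < κ / 4 := by
    rw [lt_div_iff₀ (Real.rpow_pos_of_pos hτ0 _)] at he
    linarith
  linarith

end

end Pool.Agent.Helper39.NB
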