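import Pool.Agent.Helper39.NB.Nec
import Pool.Graph.R_pool_sql_team_seeded_5cf16337.Results.MP_5a4862_nt.BeurlingRate

/-!
Sufficiency: perturbation of the dilations, and the Moebius coefficients.
-/

set_option autoImplicit false

open MeasureTheory Filter Topology Set

namespace Pool.Agent.Helper39.NB

open Pool.Agent

noncomputable section

lemma fract_contAt {u : ℝ} (h : Int.fract u ≠ 0) : ContinuousAt Int.fract u := by
  have h1 : ∀ᶠ v in 𝓝 u, ⌊v⌋ = ⌊u⌋ := by
    have h2 : (⌊u⌋ : ℝ) < u := by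
      have := Int.fract_nonneg u
      have h3 : Int.fract u = u - ⌊u⌋ := rfl
      rcases this.lt_or_eq with h4 | h4
      · linarith
      · exact absurd h4.symm h
    have h5 : u < (⌊u⌋ : ℝ) + 1 := Int.lt_floor_add_one u
    filter_upwards [Ioo_mem_nhds h2 h5] with v hv
    rw [Int.floor_eq_iff]
    exact ⟨hv.1.le, hv.2⟩
  have h2 : Int.fract =ᶠ[𝓝 u] fun v => v - (⌊u⌋ : ℝ) := by
    filter_upwards [h1] with v hv
    rw [Int.fract, hv]
  exact (continuousAt_id.sub continuousAt_const).congr h2.symm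

lemma ae_fract {k : ℕ} (hk : 1 ≤ k) : ∀ᵐ x : ℝ, x ≠ 0 → Int.fract (1 / (k : ℝ) / x) ≠ 0 := by
  have h1 : (⋃ m : ℤ, {x : ℝ | x = 1 / (k : ℝ) / m}).Countable :=
    countable_iUnion fun m => by
      have : {x : ℝ | x = 1 / (k : ℝ) / m} = {1 / (k : ℝ) / m} := by ext; simp
      rw [this]; exact countable_singleton _
  have h2 := h1.ae_notMem (volume : Measure ℝ)
  filter_upwards [h2] with x hx hx0 hfr
  apply hx
  rw [mem_iUnion]
  refine ⟨⌊1 / (k : ℝ) / x⌋, ?_⟩
  have h3 : (⌊1 / (k : ℝ) / x⌋ : ℝ) = 1 / (k : ℝ) / x := by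
    have h4 : Int.fract (1 / (k : ℝ) / x) = 1 / (k : ℝ) / x - ⌊1 / (k : ℝ) / x⌋ := rfl
    rw [hfr] at h4; linarith
  show x = 1 / (k : ℝ) / (⌊1 / (k : ℝ) / x⌋ : ℝ)
  rw [h3]
  have hk0 : (k : ℝ) ≠ 0 := by
    have : (1:ℝ) ≤ k := by exact_mod_cast hk
    positivity
  field_simp

/-- small perturbations of the dilations -/
theorem perturb {p : ℝ} (hp : 0 ≤ p) {A : Set ℝ} {K : Finset ℕ} {b : ℕ → ℝ}
    (hK : ∀ k ∈ K, 1 ≤ k ∧ (1 / (k : ℝ)) ∈ closure A) (hb : ∑ k ∈ K, b k / k = 0) {ε : ℝ}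
    (he : ∫ x in (0 : ℝ)..1, |1 - ∑ k ∈ K, b k * Int.fract (1 / (k : ℝ) / x)| ^ p < ε) :
    ∃ (s : Finset ℝ) (c : ℝ → ℝ), (∀ θ ∈ s, θ ∈ A) ∧ ∑ θ ∈ s, c θ * θ = 0 ∧
      ∫ x in (0 : ℝ)..1, |1 - comb s c x| ^ p < ε := by
  have hseq : ∀ k ∈ K, ∃ u : ℕ → ℝ, (∀ j, u j ∈ A) ∧ Tendsto u atTop (𝓝 (1 / (k : ℝ))) := fun k hk =>
    mem_closure_iff_seq_limit.mp (hK k hk).2
  choose! u hu1 hu2 using hseq
  set F : ℕ → ℝ → ℝ := fun j x => |1 - ∑ k ∈ K, (b k / k / u k j) * Int.fract (u k j / x)| ^ p with hF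
  have hk1 : ∀ k ∈ K, (0:ℝ) < 1 / (k:ℝ) := by
    intro k hk
    have : (1:ℝ) ≤ k := by exact_mod_cast (hK k hk).1
    positivity
  have hpos : ∀ᶠ j in atTop, ∀ k ∈ K, 1 / (2 * (k : ℝ)) < u k j := by
    rw [eventually_all_finset]
    intro k hk
    refine (hu2 k hk).eventually_const_lt ?_
    have : (1:ℝ) ≤ k := by exact_mod_cast (hK k hk).1
    rw [div_lt_div_iff₀ (by positivity) (by positivity)]
    linarith
  have hlim : Tendsto (fun j => ∫ x in (0 : ℝ)..1, F j x) atTop
      (𝓝 (∫ x in (0 : ℝ)..1, |1 - ∑ k ∈ K, b k * Int.fract (1 / (k : ℝ) / x)| ^ p)) := by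
    refine intervalIntegral.tendsto_integral_filter_of_dominated_convergence
      (fun _ => (1 + ∑ k ∈ K, 2 * |b k|) ^ p) ?_ ?_ intervalIntegrable_const ?_
    · refine Eventually.of_forall fun j => ?_
      refine Measurable.aestronglyMeasurable ?_
      simp only [hF]
      refine (measurable_const.sub (Finset.measurable_fun_sum _ fun k _ => ?_)).abs.pow_const p
      exact (measurable_fract.comp (measurable_const.div measurable_id)).const_mul _
    · filter_upwards [hpos] with j hj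
      refine Eventually.of_forall fun x _ => ?_
      simp only [hF]
      rw [Real.norm_of_nonneg (Real.rpow_nonneg (abs_nonneg _) p)]
      refine Real.rpow_le_rpow (abs_nonneg _) ?_ hp
      refine (abs_sub _ _).trans ?_
      rw [abs_one]
      gcongr
      refine (Finset.abs_sum_le_sum_abs _ _).trans (Finset.sum_le_sum fun k hk => ?_)
      have hk0 : (1:ℝ) ≤ k := by exact_mod_cast (hK k hk).1
      have h1 := hj k hk
      have hu0 : 0 < u k j := lt_trans (by positivity) h1
      rw [abs_mul, abs_of_nonneg (Int.fract_nonneg (u k j / x)), abs_div, abs_div, abs_of_pos hu0,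
        abs_of_pos (by linarith : (0:ℝ) < k)]
      have h2 : |b k| / k / u k j ≤ 2 * |b k| := by
        rw [div_div, div_le_iff₀ (by positivity)]
        rw [div_lt_iff₀ (by positivity)] at h1
        nlinarith [abs_nonneg (b k)]
      have h3 : 0 ≤ |b k| / k / u k j := by positivity
      calc |b k| / k / u k j * Int.fract (u k j / x) ≤ |b k| / k / u k j * 1 :=
            mul_le_mul_of_nonneg_left (Int.fract_lt_one _).le h3
        _ ≤ 2 * |b k| := by rw [mul_one]; exact h2
    · have hae : ∀ᵐ x : ℝ, ∀ k ∈ K, x ≠ 0 → Int.fract (1 / (k : ℝ) / x) ≠ 0 := by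
        exact (Finset.eventually_all K).mpr fun k hk => ae_fract (hK k hk).1
      filter_upwards [hae] with x hx hx01
      rw [uIoc_of_le zero_le_one] at hx01
      have hx0 : x ≠ 0 := hx01.1.ne'
      simp only [hF]
      refine Tendsto.rpow_const ?_ (Or.inr hp)
      refine Tendsto.abs (Tendsto.sub tendsto_const_nhds (tendsto_finsetSum _ fun k hk => ?_))
      have h1 : b k = b k / k / (1 / (k : ℝ)) := by
        have := hk1 k hk
        have hk0 : (k:ℝ) ≠ 0 := by
          have : (1:ℝ) ≤ k := by exact_mod_cast (hK k hk).1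
          positivity
        field_simp
      conv => rhs; rw [h1]
      refine Tendsto.mul ?_ ?_
      · exact Tendsto.div tendsto_const_nhds (hu2 k hk) (hk1 k hk).ne'
      · have h2 : Tendsto (fun j => u k j / x) atTop (𝓝 (1 / (k:ℝ) / x)) := (hu2 k hk).div_const x
        exact (fract_contAt (hx k hk hx0)).tendsto.comp h2
  have hev := (hlim.eventually_lt_const he).and hpos
  obtain ⟨j, hj1, hj2⟩ := hev.exists
  refine ⟨K.image (fun k => u k j), fun θ => ∑ k ∈ K.filter (fun k => u k j = θ), b k / k / u k j, ?_, ?_, ?_⟩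
  · intro θ hθ
    rw [Finset.mem_image] at hθ
    obtain ⟨k, hk, rfl⟩ := hθ
    exact hu1 k hk j
  · have h1 : ∀ θ ∈ K.image (fun k => u k j), (∑ k ∈ K.filter (fun k => u k j = θ), b k / k / u k j) * θ =
        ∑ k ∈ K.filter (fun k => u k j = θ), b k / k := by
      intro θ _
      rw [Finset.sum_mul]
      refine Finset.sum_congr rfl fun k hk => ?_
      rw [Finset.mem_filter] at hk
      rw [← hk.2]
      have h2 := hj2 k hk.1
      have hk0 : (1:ℝ) ≤ k := by exact_mod_cast (hK k hk.1).1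
      have hu0 : 0 < u k j := lt_trans (by positivity) h2
      exact div_mul_cancel₀ _ hu0.ne'
    rw [Finset.sum_congr rfl h1, Finset.sum_fiberwise_of_maps_to (fun k hk => Finset.mem_image_of_mem _ hk), hb]
  · have h1 : ∀ x, comb (K.image (fun k => u k j)) (fun θ => ∑ k ∈ K.filter (fun k => u k j = θ), b k / k / u k j) x =
        ∑ k ∈ K, (b k / k / u k j) * Int.fract (u k j / x) := by
      intro x
      unfold comb
      rw [← Finset.sum_fiberwise_of_maps_to (g := fun k => u k j) (fun k hk => Finset.mem_image_of_mem _ hk)]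
      refine Finset.sum_congr rfl fun θ _ => ?_
      rw [Finset.sum_mul]
      refine Finset.sum_congr rfl fun k hk => ?_
      rw [Finset.mem_filter] at hk
      rw [hk.2]
    simp_rw [h1]
    exact hj1

/-- the natural approximants in `L^p`, `p Θ < 1` -/
theorem approx_of_closure {p : ℝ} (hp : 1 ≤ p) {A : Set ℝ}
    (hcl : ∀ n : ℕ, Squarefree n → (1 / (n : ℝ)) ∈ closure A)
    {σ : ℝ} (hσ : σ < 1 / p) (hz : ∀ s : ℂ, σ < s.re → riemannZeta s ≠ 0) : Approx p A := by
  have hp0 : 0 < p := by linarith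
  have hT : p * Results.MP_5a4862_nt.BeurlingRate.Theta < 1 := by
    have h1 : Results.MP_5a4862_nt.BeurlingRate.Theta ≤ max σ 0 := by
      unfold Results.MP_5a4862_nt.BeurlingRate.Theta
      rcases Set.eq_empty_or_nonempty {σ : ℝ | ∃ s : ℂ, riemannZeta s = 0 ∧ s.re = σ} with h | h
      · rw [h, Real.sSup_empty]; exact le_max_right _ _
      · refine csSup_le h ?_
        rintro x ⟨s, hs, rfl⟩
        by_contra hc
        exact hz s (lt_of_le_of_lt (le_max_left _ _) (not_le.1 hc)) hs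
    have h2 : max σ 0 < 1 / p := max_lt hσ (by positivity)
    rw [lt_div_iff₀ hp0] at h2
    nlinarith
  have hlim := (Results.MP_5a4862_nt.BeurlingRate.result.2.2.1) p hp hT
  set η : ℝ := 1 / p - Results.MP_5a4862_nt.BeurlingRate.Theta with hη
  have hη0 : 0 < η := by
    rw [hη, sub_pos, lt_div_iff₀ hp0]; linarith
  intro ε hε
  have h1 : ∀ᶠ n : ℕ in atTop, Real.log (Results.MP_5a4862_nt.BeurlingRate.err p n
      fun k => -(ArithmeticFunction.moebius k : ℝ)) / Real.log n < -(η / 2) :=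
    hlim.eventually_lt_const (by linarith)
  have h2 : Tendsto (fun n : ℕ => (n : ℝ) ^ (-(η / 2))) atTop (𝓝 0) :=
    (tendsto_rpow_neg_atTop (by linarith)).comp tendsto_natCast_atTop_atTop
  have h3 : ∀ᶠ n : ℕ in atTop, (n : ℝ) ^ (-(η / 2)) < ε ^ (1 / p) :=
    h2.eventually_lt_const (Real.rpow_pos_of_pos hε _)
  obtain ⟨n, hn1, hn2, hn3⟩ := (h1.and (h3.and (eventually_ge_atTop 2))).exists
  have hnr : (1:ℝ) < n := by exact_mod_cast (by omega : 1 < n)
  have hlogn : 0 < Real.log n := Real.log_pos hnr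
  set e : ℝ := Results.MP_5a4862_nt.BeurlingRate.err p n fun k => -(ArithmeticFunction.moebius k : ℝ) with he
  have he0 : 0 ≤ e := by
    rw [he]; unfold Results.MP_5a4862_nt.BeurlingRate.err
    exact Real.rpow_nonneg (intervalIntegral.integral_nonneg zero_le_one fun x _ => by positivity) _
  have he1 : e < ε ^ (1 / p) := by
    rcases he0.lt_or_eq with h | h
    · refine lt_trans ?_ hn2
      rw [div_lt_iff₀ hlogn] at hn1
      rw [← Real.log_lt_log_iff h (by positivity), Real.log_rpow (by linarith)]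
      exact hn1
    · rw [← h]; positivity
  set I : ℝ := ∫ x in (0 : ℝ)..1,
    |1 - ∑ k ∈ Finset.Icc 2 n, (-(ArithmeticFunction.moebius k : ℝ)) * (Int.fract (1 / (k * x)) - Int.fract (1 / x) / k)| ^ p with hI
  have hI0 : 0 ≤ I := intervalIntegral.integral_nonneg zero_le_one fun x _ => by positivity
  have he2 : e = I ^ (1 / p) := rfl
  have hI1 : I < ε := by
    rw [he2] at he1
    exact (Real.rpow_lt_rpow_iff hI0 hε.le (by positivity)).mp he1
  -- the coefficients
  set K : Finset ℕ := (Finset.Icc 1 n).filter Squarefree with hKdef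
  set b : ℕ → ℝ := fun k => if k = 1 then ∑ i ∈ Finset.Icc 2 n, (ArithmeticFunction.moebius i : ℝ) / i
    else -(ArithmeticFunction.moebius k : ℝ) with hbdef
  have hsplit : ∀ g : ℕ → ℝ, (∀ k, ¬ Squarefree k → g k = 0) →
      ∑ k ∈ K, g k = g 1 + ∑ k ∈ Finset.Icc 2 n, g k := by
    intro g hg
    rw [hKdef, Finset.sum_filter]
    have h5 : ∀ k ∈ Finset.Icc 1 n, (if Squarefree k then g k else 0) = g k := by
      intro k _
      split_ifs with h
      · rfl
      · exact (hg k h).symm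
    rw [Finset.sum_congr rfl h5, ← Finset.add_sum_Ioc_eq_sum_Icc (by omega : 1 ≤ n)]
    rfl
  have hb0 : ∀ k, ¬ Squarefree k → b k = 0 := by
    intro k hk
    have h5 : k ≠ 1 := by rintro rfl; exact hk squarefree_one
    simp only [hbdef, if_neg h5]
    rw [ArithmeticFunction.moebius_eq_zero_of_not_squarefree hk]; simp
  have hb2 : ∀ g : ℕ → ℝ, ∑ k ∈ Finset.Icc 2 n, b k * g k =
      ∑ k ∈ Finset.Icc 2 n, (-(ArithmeticFunction.moebius k : ℝ)) * g k := by
    intro g
    refine Finset.sum_congr rfl fun k hk => ?_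
    rw [Finset.mem_Icc] at hk
    simp only [hbdef, if_neg (by omega : k ≠ 1)]
  refine perturb hp0.le (K := K) (b := b) ?_ ?_ ?_
  · intro k hk
    rw [hKdef, Finset.mem_filter, Finset.mem_Icc] at hk
    exact ⟨hk.1.1, hcl k hk.2⟩
  · rw [hsplit (fun k => b k / k) (fun k hk => by simp [hb0 k hk])]
    have h6 := hb2 (fun k => (k:ℝ)⁻¹)
    simp only [div_eq_mul_inv]
    rw [h6]
    simp only [hbdef, if_true, Nat.cast_one, inv_one, mul_one, div_eq_mul_inv, neg_mul, Finset.sum_neg_distrib]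
    ring
  · refine lt_of_le_of_lt (le_of_eq ?_) hI1
    rw [hI]
    refine intervalIntegral.integral_congr fun x _ => ?_
    show |1 - ∑ k ∈ K, b k * Int.fract (1 / (k : ℝ) / x)| ^ p =
      |1 - ∑ k ∈ Finset.Icc 2 n, (-(ArithmeticFunction.moebius k : ℝ)) *
        (Int.fract (1 / (k * x)) - Int.fract (1 / x) / k)| ^ p
    congr 3
    rw [hsplit (fun k => b k * Int.fract (1 / (k:ℝ) / x)) (fun k hk => by simp [hb0 k hk]), hb2]
    simp only [hbdef, if_true, Nat.cast_one, div_one]
    rw [Finset.sum_mul, ← Finset.sum_add_distrib]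
    refine Finset.sum_congr rfl fun k _ => ?_
    rw [div_div]
    ring

end

end Pool.Agent.Helper39.NB
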